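import Pool.Agent.E8helper78.PS.One

set_option autoImplicit false
open MeasureTheory Filter Topology
namespace Pool.Agent.E8helper78.PS
open Pool.Agent.E8helper2.PS

/-- the finite sum of the reversed sequence -/
noncomputable def PP (a : ℕ → ℂ) (N : ℕ) (w : ℂ) : ℂ :=
  ∑ j ∈ Finset.range (N + 1), rv a N j * Complex.exp (Complex.I * j * w)

lemma phi_rv (a : ℕ → ℂ) (N : ℕ) (w : ℂ) : Phi (rv a N) w = PP a N w := by
  unfold Phi PP
  apply tsum_eq_sum
  intro j hj
  have : ¬ (1 ≤ j ∧ j ≤ N) := by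
    intro h
    exact hj (Finset.mem_range.2 (by omega))
  simp [rv, this]

lemma summ (a : ℕ → ℂ) (M : ℝ) (ha : ∀ n, ‖a n‖ ≤ M) (w : ℂ) (hw : 0 < w.im) :
    Summable (fun j : ℕ => a j * Complex.exp (Complex.I * j * w)) := by
  have hn : ∀ j : ℕ, ‖Complex.exp (Complex.I * j * w)‖ = (Real.exp (-w.im)) ^ j := by
    intro j
    rw [Complex.norm_exp, ← Real.exp_nat_mul]
    congr 1
    simp
  have hM : 0 ≤ M := (norm_nonneg _).trans (ha 0)
  apply Summable.of_norm_bounded (g := fun j : ℕ => M * (Real.exp (-w.im)) ^ j)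
  · apply Summable.mul_left
    apply summable_geometric_of_lt_one (Real.exp_pos _).le
    rw [Real.exp_lt_one_iff]
    linarith
  · intro j
    rw [norm_mul, hn]
    exact mul_le_mul_of_nonneg_right (ha j) (by positivity)

lemma phi_split (a : ℕ → ℂ) (M : ℝ) (ha : ∀ n, ‖a n‖ ≤ M) (N : ℕ) (w : ℂ) (hw : 0 < w.im) :
    Complex.exp (-(Complex.I * N * w)) * Phi a w - PP a N (-w) = Phi (sh a N) w := by
  have hs := summ a M ha w hw
  have e1 : Phi a w = (∑ j ∈ Finset.range N, a j * Complex.exp (Complex.I * j * w)) +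
      ∑' j : ℕ, a (j + N) * Complex.exp (Complex.I * ((j + N : ℕ) : ℂ) * w) := by
    unfold Phi
    exact (hs.sum_add_tsum_nat_add N).symm
  have e2 : Complex.exp (-(Complex.I * N * w)) *
      (∑' j : ℕ, a (j + N) * Complex.exp (Complex.I * ((j + N : ℕ) : ℂ) * w)) = Phi (sh a N) w := by
    unfold Phi sh
    rw [← tsum_mul_left]
    apply tsum_congr
    intro j
    rw [mul_left_comm, ← Complex.exp_add, add_comm j N]
    congr 2
    push_cast
    ring
  have e3 : Complex.exp (-(Complex.I * N * w)) *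
      (∑ j ∈ Finset.range N, a j * Complex.exp (Complex.I * j * w)) = PP a N (-w) := by
    unfold PP
    rw [Finset.sum_range_succ', Finset.mul_sum]
    have z : rv a N 0 = 0 := by simp [rv]
    rw [z, zero_mul, add_zero, ← Finset.sum_range_reflect]
    apply Finset.sum_congr rfl
    intro j hj
    have hj' := Finset.mem_range.1 hj
    have r : rv a N (j + 1) = a (N - 1 - j) := by
      have : 1 ≤ j + 1 ∧ j + 1 ≤ N := by omega
      simp only [rv, this, and_self, if_true]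
      congr 1
      omega
    rw [r, mul_left_comm, ← Complex.exp_add]
    congr 2
    have : ((N - 1 - j : ℕ) : ℂ) = (N : ℂ) - 1 - j := by
      have h : (N - 1 - j : ℕ) = N - (1 + j) := by omega
      rw [h, Nat.cast_sub (by omega)]
      push_cast
      ring
    rw [this]
    push_cast
    ring
  rw [e1, mul_add, e2, e3]
  ring

lemma kk_neg (x1 x2 q : ℝ) (w : ℂ) : kk (-x2) (-x1) q (-w) = kk x1 x2 q w := by
  unfold kk
  push_cast
  have e1 : -w - -(x2 : ℂ) = x2 - w := by ring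
  have e2 : -(x1 : ℂ) - -w = w - x1 := by ring
  rw [e1, e2, mul_comm]

lemma pp_cont (a : ℕ → ℂ) (N : ℕ) : Continuous (PP a N) := by
  unfold PP
  fun_prop

lemma riemann (f : ℝ → ℂ) (x1 x2 : ℝ) (h : x1 ≤ x2) :
    Tendsto (fun N : ℕ => ∫ θ in x1..x2, Complex.exp (-(Complex.I * N * (θ : ℂ))) * f θ) atTop (𝓝 0) := by
  have h1 := Real.tendsto_integral_exp_smul_cocompact (Set.indicator (Set.Ioc x1 x2) f)
  have h2 : Tendsto (fun N : ℕ => (N : ℝ) / (2 * Real.pi)) atTop (cocompact ℝ) := by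
    apply Tendsto.mono_right _ atTop_le_cocompact
    exact (tendsto_natCast_atTop_atTop).atTop_div_const (by positivity)
  have h3 := h1.comp h2
  refine h3.congr ?_
  intro N
  show (∫ v : ℝ, Real.fourierChar (-(v * ((N : ℝ) / (2 * Real.pi)))) •
    Set.indicator (Set.Ioc x1 x2) f v) = _
  rw [intervalIntegral.integral_of_le h, ← integral_indicator measurableSet_Ioc]
  apply integral_congr_ae
  filter_upwards with v
  by_cases hv : v ∈ Set.Ioc x1 x2
  · rw [Set.indicator_of_mem hv, Set.indicator_of_mem hv, Circle.smul_def, Real.fourierChar_apply,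
      smul_eq_mul]
    congr 2
    push_cast
    have : (Real.pi : ℂ) ≠ 0 := by exact_mod_cast Real.pi_ne_zero
    field_simp
  · rw [Set.indicator_of_notMem hv, Set.indicator_of_notMem hv, smul_zero]

theorem t_LONG (h0 : S_WIN) (h1 : S_ABEL) (h3 : S_CONT) : S_LONG := by
  intro a M e₁ e₂ ha hw1 hw2 h12 hu' ε hε
  obtain ⟨u, hu, hup⟩ := hu'
  have hM : 0 ≤ M := (norm_nonneg _).trans (ha 0)
  refine ⟨min 1 (ε / (4 * (68 * M + 1))), lt_min one_pos (by positivity), ?_⟩
  intro τ hτ0 hτ1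
  have hτa : τ ≤ 1 := (hτ1.le).trans (min_le_left _ _)
  have hτb : 68 * M * τ ≤ ε / 4 := by
    have : τ ≤ ε / (4 * (68 * M + 1)) := (hτ1.le).trans (min_le_right _ _)
    calc 68 * M * τ ≤ (68 * M + 1) * (ε / (4 * (68 * M + 1))) := by
          apply mul_le_mul (by linarith) this hτ0.le (by positivity)
      _ = ε / 4 := by field_simp
  -- choice of q
  obtain ⟨q, hq0, hqτ, hqe, hqs⟩ : ∃ q : ℝ, 0 < q ∧ q ^ 2 ≤ τ ∧ 2 * q ^ 4 < e₂ - e₁ ∧
      2 * (4 * M * q ^ 4 / τ + 4 * M * (e₂ - e₁) * q / τ ^ 2 + 4 * M * q) ≤ ε / 4 := by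
    have t1 : Tendsto (fun q : ℝ => q ^ 2) (𝓝[>] 0) (𝓝 0) := by
      have : Continuous (fun q : ℝ => q ^ 2) := by fun_prop
      have := (this.tendsto 0).mono_left (nhdsWithin_le_nhds (s := Set.Ioi 0))
      simpa using this
    have t2 : Tendsto (fun q : ℝ => 2 * q ^ 4) (𝓝[>] 0) (𝓝 0) := by
      have : Continuous (fun q : ℝ => 2 * q ^ 4) := by fun_prop
      have := (this.tendsto 0).mono_left (nhdsWithin_le_nhds (s := Set.Ioi 0))
      simpa using this
    have t3 : Tendsto (fun q : ℝ => 2 * (4 * M * q ^ 4 / τ + 4 * M * (e₂ - e₁) * q / τ ^ 2 +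
        4 * M * q)) (𝓝[>] 0) (𝓝 0) := by
      have : Continuous (fun q : ℝ => 2 * (4 * M * q ^ 4 / τ + 4 * M * (e₂ - e₁) * q / τ ^ 2 +
        4 * M * q)) := by fun_prop
      have := (this.tendsto 0).mono_left (nhdsWithin_le_nhds (s := Set.Ioi 0))
      simpa using this
    have E := (((t1.eventually (eventually_le_nhds hτ0)).and
      (t2.eventually (eventually_lt_nhds (show (0:ℝ) < e₂ - e₁ by linarith)))).and
      (t3.eventually (eventually_le_nhds (show (0:ℝ) < ε / 4 by linarith)))).and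
      (eventually_mem_nhdsWithin (a := (0:ℝ)) (s := Set.Ioi 0))
    obtain ⟨q, ⟨⟨a1, a2⟩, a3⟩, a4⟩ := E.exists
    exact ⟨q, a4, a1, a2, a3⟩
  set x1 := e₁ + q ^ 4 with hx1
  set x2 := e₂ - q ^ 4 with hx2
  have hx12 : x1 < x2 := by rw [hx1, hx2]; linarith
  have hq4 : 0 < q ^ 4 := by positivity
  have RL := riemann (fun θ : ℝ => kk x1 x2 q (θ : ℂ) * u (θ : ℂ)) x1 x2 hx12.le
  have RL' := (Metric.tendsto_atTop.1 RL) (ε / 4) (by linarith)
  obtain ⟨N₀, hN₀⟩ := RL'
  refine ⟨N₀, ?_⟩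
  intro N hN
  have hR := hN₀ N hN
  rw [dist_zero_right] at hR
  have cA : ∀ n, ‖sh a N n‖ ≤ M := fun n => ha _
  have cB : ∀ n, ‖rv a N n‖ ≤ M := fun n => by
    unfold rv
    split_ifs
    · exact ha _
    · simpa using hM
  have wA1 := (h0 a M e₁ hw1 N).1
  have wA2 := (h0 a M e₂ hw2 N).1
  have wB1 := (h0 a M e₁ hw1 N).2
  have wB2 := (h0 a M e₂ hw2 N).2
  have hre : ∀ (x y : ℝ), ((x : ℂ) + y * Complex.I).re = x := fun x y => by simp
  have him : ∀ (x y : ℝ), ((x : ℂ) + y * Complex.I).im = y := fun x y => by simp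
  have hft : ∀ c : ℕ → ℂ, (∀ n, ‖c n‖ ≤ M) →
      Continuous (fun θ : ℝ => Phi c ((θ : ℂ) + τ * Complex.I)) := by
    intro c hc
    have hg : Continuous (fun θ : ℝ => (θ : ℂ) + τ * Complex.I) := by fun_prop
    have := (h3 c M hc).1.continuousOn.comp (t := {w : ℂ | 0 < w.im}) (s := Set.univ) hg.continuousOn
      (fun θ _ => by show 0 < ((θ : ℂ) + τ * Complex.I).im; rw [him]; exact hτ0)
    rw [← continuousOn_univ]
    exact this
  -- the two functions
  have hexp : Continuous (fun w : ℂ => Complex.exp (-(Complex.I * N * w))) := by fun_prop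
  have hppn : Continuous (fun w : ℂ => PP a N (-w)) := (pp_cont a N).comp continuous_neg
  have OA := one_side h1 h3 (sh a N) M e₁ e₂ q τ cA wA1 wA2 hq0 hqe hqτ hτa
    (fun w => Complex.exp (-(Complex.I * N * w)) * u w - PP a N (-w))
    (by
      apply ContinuousOn.sub
      · apply hexp.continuousOn.mul
        apply hu.mono
        intro w hw
        obtain ⟨w1, w2, w3⟩ := hw
        rcases w3.lt_or_eq with h | h
        · exact Or.inl h
        · exact Or.inr ⟨h.symm, w1, w2⟩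
      · exact hppn.continuousOn)
    (by
      intro w hw _ _
      show Complex.exp (-(Complex.I * N * w)) * u w - PP a N (-w) = _
      rw [hup w hw]
      exact phi_split a M ha N w hw)
  have OB := one_side h1 h3 (rv a N) M (-e₂) (-e₁) q τ cB wB2 wB1 hq0 (by linarith) hqτ hτa
    (PP a N) (pp_cont a N).continuousOn (by
      intro w hw _ _
      exact (phi_rv a N w).symm)
  have y1 : -e₂ + q ^ 4 = -x2 := by rw [hx2]; ring
  have y2 : -e₁ - q ^ 4 = -x1 := by rw [hx1]; ring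
  have y3 : -e₁ - -e₂ = e₂ - e₁ := by ring
  rw [y1, y2, y3] at OB
  rw [← hx1, ← hx2] at OA
  -- integral of Dl
  have D : (∫ θ in e₁..e₂, Dl a N τ θ) = (∫ θ in e₁..e₂, Phi (sh a N) ((θ : ℂ) + τ * Complex.I)) +
      ∫ θ in (-e₂)..(-e₁), Phi (rv a N) ((θ : ℂ) + τ * Complex.I) := by
    have c1 : (∫ θ in (-e₂)..(-e₁), Phi (rv a N) ((θ : ℂ) + τ * Complex.I)) =
        ∫ θ in e₁..e₂, Phi (rv a N) (-(θ : ℂ) + τ * Complex.I) := by
      rw [← intervalIntegral.integral_comp_neg (fun θ : ℝ => Phi (rv a N) ((θ : ℂ) + τ * Complex.I))]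
      simp
    rw [c1, ← intervalIntegral.integral_add ((hft _ cA).intervalIntegrable _ _)]
    · rfl
    · have := (hft _ cB).comp continuous_neg
      have e : (fun θ : ℝ => Phi (rv a N) (-(θ : ℂ) + τ * Complex.I)) =
          (fun θ : ℝ => Phi (rv a N) ((θ : ℂ) + τ * Complex.I)) ∘ Neg.neg := by
        funext θ
        simp
      rw [e]
      exact this.intervalIntegrable _ _
  -- the real integrals
  have hkc : ContinuousOn (fun θ : ℝ => kk x1 x2 q (θ : ℂ)) (Set.Icc x1 x2) := by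
    intro θ hθ
    have := (kk_diff x1 x2 q hq0 (θ : ℂ) (by simpa using hθ.1) (by simpa using hθ.2)).continuousAt
    exact (ContinuousAt.comp (f := fun θ : ℝ => (θ : ℂ)) this
        Complex.continuous_ofReal.continuousAt).continuousWithinAt
  have huc : ContinuousOn (fun θ : ℝ => u (θ : ℂ)) (Set.Icc x1 x2) := by
    apply hu.comp Complex.continuous_ofReal.continuousOn
    intro θ hθ
    exact Or.inr ⟨by simp, by simp only [Complex.ofReal_re]; linarith [hθ.1],
      by simp only [Complex.ofReal_re]; linarith [hθ.2]⟩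
  have iA : IntervalIntegrable (fun θ : ℝ => kk x1 x2 q (θ : ℂ) *
      (Complex.exp (-(Complex.I * N * (θ : ℂ))) * u (θ : ℂ) - PP a N (-(θ : ℂ)))) volume x1 x2 := by
    apply ContinuousOn.intervalIntegrable
    rw [Set.uIcc_of_le hx12.le]
    apply hkc.mul
    apply ContinuousOn.sub
    · exact (hexp.comp Complex.continuous_ofReal).continuousOn.mul huc
    · exact (hppn.comp Complex.continuous_ofReal).continuousOn
  have iB : IntervalIntegrable (fun θ : ℝ => kk x1 x2 q (θ : ℂ) * PP a N (-(θ : ℂ))) volume x1 x2 := by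
    apply ContinuousOn.intervalIntegrable
    rw [Set.uIcc_of_le hx12.le]
    apply hkc.mul
    exact (hppn.comp Complex.continuous_ofReal).continuousOn
  have B : (∫ θ in (-x2)..(-x1), kk (-x2) (-x1) q (θ : ℂ) * PP a N (θ : ℂ)) =
      ∫ θ in x1..x2, kk x1 x2 q (θ : ℂ) * PP a N (-(θ : ℂ)) := by
    rw [← intervalIntegral.integral_comp_neg (fun θ : ℝ => kk (-x2) (-x1) q (θ : ℂ) * PP a N (θ : ℂ))]
    apply intervalIntegral.integral_congr
    intro θ _
    show kk (-x2) (-x1) q ((-θ : ℝ) : ℂ) * PP a N ((-θ : ℝ) : ℂ) = _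
    rw [Complex.ofReal_neg, kk_neg]
  have S : (∫ θ in x1..x2, kk x1 x2 q (θ : ℂ) *
      (Complex.exp (-(Complex.I * N * (θ : ℂ))) * u (θ : ℂ) - PP a N (-(θ : ℂ)))) +
      (∫ θ in (-x2)..(-x1), kk (-x2) (-x1) q (θ : ℂ) * PP a N (θ : ℂ)) =
      ∫ θ in x1..x2, Complex.exp (-(Complex.I * N * (θ : ℂ))) * (kk x1 x2 q (θ : ℂ) * u (θ : ℂ)) := by
    rw [B, ← intervalIntegral.integral_add iA iB]
    apply intervalIntegral.integral_congr
    intro θ _
    show kk x1 x2 q (θ : ℂ) * (Complex.exp (-(Complex.I * N * (θ : ℂ))) * u (θ : ℂ) -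
      PP a N (-(θ : ℂ))) + kk x1 x2 q (θ : ℂ) * PP a N (-(θ : ℂ)) = _
    ring
  rw [D]
  set TA := ∫ θ in e₁..e₂, Phi (sh a N) ((θ : ℂ) + τ * Complex.I)
  set TB := ∫ θ in (-e₂)..(-e₁), Phi (rv a N) ((θ : ℂ) + τ * Complex.I)
  set RA := ∫ θ in x1..x2, kk x1 x2 q (θ : ℂ) *
      (Complex.exp (-(Complex.I * N * (θ : ℂ))) * u (θ : ℂ) - PP a N (-(θ : ℂ)))
  set RB := ∫ θ in (-x2)..(-x1), kk (-x2) (-x1) q (θ : ℂ) * PP a N (θ : ℂ)
  have f : ‖TA + TB‖ ≤ ‖TA - RA‖ + ‖TB - RB‖ + ‖RA + RB‖ := by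
    have e : TA + TB = (TA - RA) + (TB - RB) + (RA + RB) := by ring
    rw [e]
    exact (norm_add_le _ _).trans (add_le_add (norm_add_le _ _) le_rfl)
  rw [S] at f
  have g : 4 * M * q ^ 4 / τ + 4 * M * (e₂ - e₁) * q / τ ^ 2 + 34 * M * τ + 4 * M * q +
      (4 * M * q ^ 4 / τ + 4 * M * (e₂ - e₁) * q / τ ^ 2 + 34 * M * τ + 4 * M * q) =
      2 * (4 * M * q ^ 4 / τ + 4 * M * (e₂ - e₁) * q / τ ^ 2 + 4 * M * q) + 68 * M * τ := by ring
  linarith

end Pool.Agent.E8helper78.PS
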