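import Pool.Agent.E8helper2.PS.Stm

set_option autoImplicit false
open MeasureTheory Filter Topology
namespace Pool.Agent.E8helper78.PS
open Pool.Agent.E8helper2.PS

/-- the kernel -/
noncomputable def kk (x1 x2 q : ℝ) (w : ℂ) : ℂ :=
  ((w - x1) / (w - x1 + q)) * (((x2 : ℂ) - w) / (x2 - w + q))

lemma re_add (z : ℂ) (q : ℝ) : (z + (q : ℂ)).re = z.re + q := by simp

lemma add_ne (z : ℂ) (q : ℝ) (hz : 0 ≤ z.re) (hq : 0 < q) : z + (q : ℂ) ≠ 0 := by
  intro h
  have := congrArg Complex.re h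
  simp at this
  linarith

lemma norm_le_add (z : ℂ) (q : ℝ) (hz : 0 ≤ z.re) (hq : 0 < q) : ‖z‖ ≤ ‖z + (q : ℂ)‖ := by
  rw [← Real.sqrt_sq (norm_nonneg z), ← Real.sqrt_sq (norm_nonneg (z + (q : ℂ)))]
  apply Real.sqrt_le_sqrt
  rw [Complex.sq_norm, Complex.sq_norm, Complex.normSq_apply, Complex.normSq_apply]
  simp only [Complex.add_re, Complex.ofReal_re, Complex.add_im, Complex.ofReal_im, add_zero]
  nlinarith

lemma q_le_add (z : ℂ) (q : ℝ) (hz : 0 ≤ z.re) (hq : 0 < q) : q ≤ ‖z + (q : ℂ)‖ := by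
  have h := Complex.abs_re_le_norm (z + (q : ℂ))
  have h2 := le_abs_self ((z + (q : ℂ)).re)
  rw [re_add] at h h2
  linarith

lemma phi_le_one (z : ℂ) (q : ℝ) (hz : 0 ≤ z.re) (hq : 0 < q) : ‖z / (z + (q : ℂ))‖ ≤ 1 := by
  rw [norm_div]
  have h := q_le_add z q hz hq
  rw [div_le_one (by linarith)]
  exact norm_le_add z q hz hq

lemma phi_le (z : ℂ) (q : ℝ) (hz : 0 ≤ z.re) (hq : 0 < q) : ‖z / (z + (q : ℂ))‖ ≤ ‖z‖ / q := by
  rw [norm_div]
  have h := q_le_add z q hz hq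
  exact div_le_div_of_nonneg_left (norm_nonneg _) hq h

lemma one_sub_phi_le (z : ℂ) (q τ : ℝ) (hz : 0 ≤ z.re) (hq : 0 < q) (hτ : 0 < τ) (hi : τ ≤ |z.im|) :
    ‖1 - z / (z + (q : ℂ))‖ ≤ q / τ := by
  have hne := add_ne z q hz hq
  have e : 1 - z / (z + (q : ℂ)) = (q : ℂ) / (z + (q : ℂ)) := by
    field_simp
    ring
  rw [e, norm_div, Complex.norm_real, Real.norm_eq_abs, abs_of_pos hq]
  apply div_le_div_of_nonneg_left hq.le hτ
  calc τ ≤ |z.im| := hi
    _ = |(z + (q : ℂ)).im| := by simp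
    _ ≤ _ := Complex.abs_im_le_norm _

section
variable (x1 x2 q : ℝ) (hq : 0 < q)
include hq

lemma kk_le_one (w : ℂ) (h1 : x1 ≤ w.re) (h2 : w.re ≤ x2) : ‖kk x1 x2 q w‖ ≤ 1 := by
  unfold kk
  rw [norm_mul]
  have a := phi_le_one (w - x1) q (by simp; linarith) hq
  have b := phi_le_one ((x2 : ℂ) - w) q (by simp; linarith) hq
  calc _ ≤ 1 * 1 := mul_le_mul a b (norm_nonneg _) (by norm_num)
    _ = 1 := by norm_num

lemma kk_left (w : ℂ) (h1 : x1 ≤ w.re) (h2 : w.re ≤ x2) : ‖kk x1 x2 q w‖ ≤ ‖w - x1‖ / q := by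
  unfold kk
  rw [norm_mul]
  have a := phi_le (w - x1) q (by simp; linarith) hq
  have b := phi_le_one ((x2 : ℂ) - w) q (by simp; linarith) hq
  calc _ ≤ (‖w - x1‖ / q) * 1 := mul_le_mul a b (norm_nonneg _) (by positivity)
    _ = _ := by ring

lemma kk_right (w : ℂ) (h1 : x1 ≤ w.re) (h2 : w.re ≤ x2) : ‖kk x1 x2 q w‖ ≤ ‖(x2 : ℂ) - w‖ / q := by
  unfold kk
  rw [norm_mul]
  have a := phi_le_one (w - x1) q (by simp; linarith) hq
  have b := phi_le ((x2 : ℂ) - w) q (by simp; linarith) hq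
  calc _ ≤ 1 * (‖(x2 : ℂ) - w‖ / q) := mul_le_mul a b (norm_nonneg _) (by norm_num)
    _ = _ := by ring

lemma one_sub_kk (w : ℂ) (τ : ℝ) (hτ : 0 < τ) (h1 : x1 ≤ w.re) (h2 : w.re ≤ x2) (hi : w.im = τ) :
    ‖1 - kk x1 x2 q w‖ ≤ 2 * q / τ := by
  unfold kk
  set A := (w - x1) / (w - x1 + q)
  set B := ((x2 : ℂ) - w) / (x2 - w + q)
  have a : ‖A‖ ≤ 1 := phi_le_one (w - x1) q (by simp; linarith) hq
  have a' : ‖1 - A‖ ≤ q / τ := one_sub_phi_le (w - x1) q τ (by simp; linarith) hq hτ (by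
    simp [hi, abs_of_pos hτ])
  have b' : ‖1 - B‖ ≤ q / τ := one_sub_phi_le ((x2 : ℂ) - w) q τ (by simp; linarith) hq hτ (by
    simp [hi, abs_of_pos hτ])
  have e : 1 - A * B = (1 - A) + A * (1 - B) := by ring
  rw [e]
  calc _ ≤ ‖1 - A‖ + ‖A * (1 - B)‖ := norm_add_le _ _
    _ = ‖1 - A‖ + ‖A‖ * ‖1 - B‖ := by rw [norm_mul]
    _ ≤ q / τ + 1 * (q / τ) := by
        gcongr
    _ = 2 * q / τ := by ring

lemma kk_diff (w : ℂ) (h1 : x1 ≤ w.re) (h2 : w.re ≤ x2) : DifferentiableAt ℂ (kk x1 x2 q) w := by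
  unfold kk
  have a := add_ne (w - x1) q (by simp; linarith) hq
  have b := add_ne ((x2 : ℂ) - w) q (by simp; linarith) hq
  fun_prop (disch := assumption)

end


lemma vert (h1 : S_ABEL) (h3 : S_CONT) (c : ℕ → ℂ) (M e₁ e₂ q τ κ x x1 x2 : ℝ) (hM : 0 ≤ M)
    (hc : ∀ n, ‖c n‖ ≤ M) (hw : Win c M κ) (hq : 0 < q) (hqτ : q ^ 2 ≤ τ) (hτ : τ ≤ 1)
    (hx1 : e₁ < x1) (hx2 : x2 < e₂) (hxa : x1 ≤ x) (hxb : x ≤ x2) (hxk : |x - κ| ≤ q ^ 4)
    (F : ℂ → ℂ) (hF : ContinuousOn F {w : ℂ | e₁ < w.re ∧ w.re < e₂ ∧ 0 ≤ w.im})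
    (hFP : ∀ w : ℂ, 0 < w.im → e₁ < w.re → w.re < e₂ → F w = Phi c w)
    (hk : ∀ y : ℝ, 0 ≤ y → ‖kk x1 x2 q ((x : ℂ) + y * Complex.I)‖ ≤ y / q) :
    ‖∫ y in (0:ℝ)..τ, kk x1 x2 q ((x : ℂ) + y * Complex.I) * F ((x : ℂ) + y * Complex.I)‖ ≤
      2 * M * q + 17 * M * τ := by
  have hτ0 : 0 < τ := lt_of_lt_of_le (by positivity) hqτ
  have hre : ∀ y : ℝ, ((x : ℂ) + y * Complex.I).re = x := fun y => by simp
  have him : ∀ y : ℝ, ((x : ℂ) + y * Complex.I).im = y := fun y => by simp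
  have hcont : ContinuousOn (fun y : ℝ => kk x1 x2 q ((x : ℂ) + y * Complex.I) *
      F ((x : ℂ) + y * Complex.I)) (Set.Icc 0 τ) := by
    have hg : Continuous (fun y : ℝ => (x : ℂ) + y * Complex.I) := by fun_prop
    apply ContinuousOn.mul
    · intro y hy
      have := (kk_diff x1 x2 q hq ((x : ℂ) + y * Complex.I) (by rw [hre]; exact hxa)
        (by rw [hre]; exact hxb)).continuousAt
      exact (ContinuousAt.comp (f := fun y : ℝ => (x : ℂ) + y * Complex.I) this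
        hg.continuousAt).continuousWithinAt
    · apply hF.comp hg.continuousOn
      intro y hy
      refine ⟨?_, ?_, ?_⟩
      · rw [hre]; linarith
      · rw [hre]; linarith
      · rw [him]; exact hy.1
  have hq2 : 0 < q ^ 2 := by positivity
  have i1 : IntervalIntegrable (fun y : ℝ => kk x1 x2 q ((x : ℂ) + y * Complex.I) *
      F ((x : ℂ) + y * Complex.I)) volume 0 (q ^ 2) := by
    apply ContinuousOn.intervalIntegrable
    rw [Set.uIcc_of_le hq2.le]
    exact hcont.mono (Set.Icc_subset_Icc le_rfl hqτ)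
  have i2 : IntervalIntegrable (fun y : ℝ => kk x1 x2 q ((x : ℂ) + y * Complex.I) *
      F ((x : ℂ) + y * Complex.I)) volume (q ^ 2) τ := by
    apply ContinuousOn.intervalIntegrable
    rw [Set.uIcc_of_le hqτ]
    exact hcont.mono (Set.Icc_subset_Icc hq2.le le_rfl)
  rw [← intervalIntegral.integral_add_adjacent_intervals i1 i2]
  refine (norm_add_le _ _).trans ?_
  obtain ⟨hd, hb, hdv⟩ := h3 c M hc
  have b1 : ‖∫ y in (0:ℝ)..(q ^ 2), kk x1 x2 q ((x : ℂ) + y * Complex.I) *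
      F ((x : ℂ) + y * Complex.I)‖ ≤ (2 * M / q) * |q ^ 2 - 0| := by
    apply intervalIntegral.norm_integral_le_of_norm_le_const
    intro y hy
    rw [Set.uIoc_of_le hq2.le] at hy
    have hy0 : 0 < y := hy.1
    rw [norm_mul, hFP _ (by rw [him]; exact hy0) (by rw [hre]; linarith) (by rw [hre]; linarith)]
    have a := hk y hy0.le
    have b := hb ((x : ℂ) + y * Complex.I) (by rw [him]; exact hy0) (by rw [him]; linarith [hy.2])
    rw [him] at b
    calc _ ≤ (y / q) * (2 * M / y) := mul_le_mul a b (norm_nonneg _) (by positivity)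
      _ = 2 * M / q := by field_simp
  have b2 : ‖∫ y in (q ^ 2)..τ, kk x1 x2 q ((x : ℂ) + y * Complex.I) *
      F ((x : ℂ) + y * Complex.I)‖ ≤ (17 * M) * |τ - q ^ 2| := by
    apply intervalIntegral.norm_integral_le_of_norm_le_const
    intro y hy
    rw [Set.uIoc_of_le hqτ] at hy
    have hy0 : 0 < y := lt_trans hq2 hy.1
    rw [norm_mul, hFP _ (by rw [him]; exact hy0) (by rw [hre]; linarith) (by rw [hre]; linarith)]
    have a := kk_le_one x1 x2 q hq ((x : ℂ) + y * Complex.I) (by rw [hre]; exact hxa)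
      (by rw [hre]; exact hxb)
    have b0 := h1 c M κ y hw hy0
    have b : ‖Phi c ((x : ℂ) + y * Complex.I) - Phi c ((κ : ℂ) + y * Complex.I)‖ ≤
        (16 * M / y ^ 2) * ‖((x : ℂ) + y * Complex.I) - ((κ : ℂ) + y * Complex.I)‖ := by
      apply Convex.norm_image_sub_le_of_norm_deriv_le (s := {w : ℂ | w.im = y})
      · intro w hw'
        have hw'' : w.im = y := hw'
        apply hd.differentiableAt
        exact (isOpen_lt continuous_const Complex.continuous_im).mem_nhds (by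
          show 0 < w.im
          rw [hw'']; exact hy0)
      · intro w hw'
        have hw'' : w.im = y := hw'
        have := hdv w (by rw [hw'']; exact hy0) (by rw [hw'']; linarith [hy.2])
        rwa [hw''] at this
      · intro u hu v hv a b ha hb hab
        have hu' : u.im = y := hu
        have hv' : v.im = y := hv
        show (a • u + b • v).im = y
        simp [hu', hv', ← add_mul, hab]
      · show ((κ : ℂ) + y * Complex.I).im = y
        simp
      · show ((x : ℂ) + y * Complex.I).im = y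
        simp
    have e : ‖((x : ℂ) + y * Complex.I) - ((κ : ℂ) + y * Complex.I)‖ = |x - κ| := by
      rw [add_sub_add_right_eq_sub, ← Complex.ofReal_sub, Complex.norm_real, Real.norm_eq_abs]
    rw [e] at b
    have hy2 : q ^ 4 ≤ y ^ 2 := by
      have : q ^ 4 = (q ^ 2) ^ 2 := by ring
      rw [this]
      exact pow_le_pow_left₀ hq2.le hy.1.le 2
    have c1 : (16 * M / y ^ 2) * |x - κ| ≤ 16 * M := by
      calc (16 * M / y ^ 2) * |x - κ| ≤ (16 * M / y ^ 2) * y ^ 2 := by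
            apply mul_le_mul_of_nonneg_left (hxk.trans hy2) (by positivity)
        _ = 16 * M := by field_simp
    have c2 : ‖Phi c ((x : ℂ) + y * Complex.I)‖ ≤ 17 * M := by
      have := norm_sub_norm_le (Phi c ((x : ℂ) + y * Complex.I)) (Phi c ((κ : ℂ) + y * Complex.I))
      linarith
    calc _ ≤ 1 * (17 * M) := mul_le_mul a c2 (norm_nonneg _) (by norm_num)
      _ = 17 * M := by ring
  have e1 : (2 * M / q) * |q ^ 2 - 0| = 2 * M * q := by
    rw [sub_zero, abs_of_pos hq2]; field_simp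
  have e2 : (17 * M) * |τ - q ^ 2| ≤ 17 * M * τ := by
    rw [abs_of_nonneg (by linarith)]
    apply mul_le_mul_of_nonneg_left _ (by positivity)
    linarith
  rw [e1] at b1
  linarith

theorem one_side (h1 : S_ABEL) (h3 : S_CONT) (c : ℕ → ℂ) (M e₁ e₂ q τ : ℝ)
    (hc : ∀ n, ‖c n‖ ≤ M) (hw1 : Win c M e₁) (hw2 : Win c M e₂) (hq : 0 < q)
    (hs : 2 * q ^ 4 < e₂ - e₁) (hqτ : q ^ 2 ≤ τ) (hτ : τ ≤ 1) (F : ℂ → ℂ)
    (hF : ContinuousOn F {w : ℂ | e₁ < w.re ∧ w.re < e₂ ∧ 0 ≤ w.im})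
    (hFP : ∀ w : ℂ, 0 < w.im → e₁ < w.re → w.re < e₂ → F w = Phi c w) :
    ‖(∫ θ in e₁..e₂, Phi c ((θ : ℂ) + τ * Complex.I)) -
      ∫ θ in (e₁ + q ^ 4)..(e₂ - q ^ 4), kk (e₁ + q ^ 4) (e₂ - q ^ 4) q (θ : ℂ) * F (θ : ℂ)‖ ≤
      4 * M * q ^ 4 / τ + 4 * M * (e₂ - e₁) * q / τ ^ 2 + 34 * M * τ + 4 * M * q := by
  have hM : 0 ≤ M := (norm_nonneg _).trans (hc 0)
  have hτ0 : 0 < τ := lt_of_lt_of_le (by positivity) hqτ
  have hq4 : 0 < q ^ 4 := by positivity
  obtain ⟨hd, hb, hdv⟩ := h3 c M hc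
  set x1 := e₁ + q ^ 4 with hx1
  set x2 := e₂ - q ^ 4 with hx2
  have h12 : x1 < x2 := by rw [hx1, hx2]; linarith
  have hre : ∀ (x y : ℝ), ((x : ℂ) + y * Complex.I).re = x := fun x y => by simp
  have him : ∀ (x y : ℝ), ((x : ℂ) + y * Complex.I).im = y := fun x y => by simp
  -- continuity of the top function
  have hft : Continuous (fun θ : ℝ => Phi c ((θ : ℂ) + τ * Complex.I)) := by
    have hg : Continuous (fun θ : ℝ => (θ : ℂ) + τ * Complex.I) := by fun_prop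
    have := hd.continuousOn.comp (t := {w : ℂ | 0 < w.im}) (s := Set.univ) hg.continuousOn
      (fun θ _ => by show 0 < ((θ : ℂ) + τ * Complex.I).im; rw [him]; exact hτ0)
    rw [← continuousOn_univ]
    exact this
  have hfb : ∀ θ : ℝ, ‖Phi c ((θ : ℂ) + τ * Complex.I)‖ ≤ 2 * M / τ := by
    intro θ
    have := hb ((θ : ℂ) + τ * Complex.I) (by rw [him]; exact hτ0) (by rw [him]; exact hτ)
    rwa [him] at this
  -- step 1 : end pieces
  have s1 : (∫ θ in e₁..e₂, Phi c ((θ : ℂ) + τ * Complex.I)) =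
      (∫ θ in e₁..x1, Phi c ((θ : ℂ) + τ * Complex.I)) +
      (∫ θ in x1..x2, Phi c ((θ : ℂ) + τ * Complex.I)) +
      ∫ θ in x2..e₂, Phi c ((θ : ℂ) + τ * Complex.I) := by
    rw [intervalIntegral.integral_add_adjacent_intervals (hft.intervalIntegrable _ _)
      (hft.intervalIntegrable _ _), intervalIntegral.integral_add_adjacent_intervals
      (hft.intervalIntegrable _ _) (hft.intervalIntegrable _ _)]
  have n1 : ‖∫ θ in e₁..x1, Phi c ((θ : ℂ) + τ * Complex.I)‖ ≤ 2 * M / τ * q ^ 4 := by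
    have := intervalIntegral.norm_integral_le_of_norm_le_const (a := e₁) (b := x1)
      (f := fun θ : ℝ => Phi c ((θ : ℂ) + τ * Complex.I)) (C := 2 * M / τ) (fun θ _ => hfb θ)
    rwa [hx1, add_sub_cancel_left, abs_of_pos hq4, ← hx1] at this
  have n2 : ‖∫ θ in x2..e₂, Phi c ((θ : ℂ) + τ * Complex.I)‖ ≤ 2 * M / τ * q ^ 4 := by
    have := intervalIntegral.norm_integral_le_of_norm_le_const (a := x2) (b := e₂)
      (f := fun θ : ℝ => Phi c ((θ : ℂ) + τ * Complex.I)) (C := 2 * M / τ) (fun θ _ => hfb θ)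
    rwa [hx2, sub_sub_cancel, abs_of_pos hq4, ← hx2] at this
  -- step 2 : the kernel on the top side
  have hkc : ∀ y : ℝ, ContinuousOn (fun θ : ℝ => kk x1 x2 q ((θ : ℂ) + y * Complex.I))
      (Set.Icc x1 x2) := by
    intro y θ hθ
    have hg : Continuous (fun θ : ℝ => (θ : ℂ) + y * Complex.I) := by fun_prop
    have := (kk_diff x1 x2 q hq ((θ : ℂ) + y * Complex.I) (by rw [hre]; exact hθ.1)
        (by rw [hre]; exact hθ.2)).continuousAt
    exact (ContinuousAt.comp (f := fun θ : ℝ => (θ : ℂ) + y * Complex.I) this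
        hg.continuousAt).continuousWithinAt
  have ik : IntervalIntegrable (fun θ : ℝ => kk x1 x2 q ((θ : ℂ) + τ * Complex.I) *
      Phi c ((θ : ℂ) + τ * Complex.I)) volume x1 x2 := by
    apply ContinuousOn.intervalIntegrable
    rw [Set.uIcc_of_le h12.le]
    exact (hkc τ).mul hft.continuousOn
  have n3 : ‖(∫ θ in x1..x2, Phi c ((θ : ℂ) + τ * Complex.I)) -
      ∫ θ in x1..x2, kk x1 x2 q ((θ : ℂ) + τ * Complex.I) * Phi c ((θ : ℂ) + τ * Complex.I)‖ ≤
      (2 * q / τ * (2 * M / τ)) * |x2 - x1| := by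
    rw [← intervalIntegral.integral_sub (hft.intervalIntegrable _ _) ik]
    apply intervalIntegral.norm_integral_le_of_norm_le_const
    intro θ hθ
    rw [Set.uIoc_of_le h12.le] at hθ
    have e : Phi c ((θ : ℂ) + τ * Complex.I) - kk x1 x2 q ((θ : ℂ) + τ * Complex.I) *
        Phi c ((θ : ℂ) + τ * Complex.I) = (1 - kk x1 x2 q ((θ : ℂ) + τ * Complex.I)) *
        Phi c ((θ : ℂ) + τ * Complex.I) := by ring
    rw [e, norm_mul]
    exact mul_le_mul (one_sub_kk x1 x2 q hq _ τ hτ0 (by rw [hre]; exact hθ.1.le)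
      (by rw [hre]; exact hθ.2) (by rw [him])) (hfb θ) (norm_nonneg _) (by positivity)
  -- step 3 : the rectangle
  have hG : ContinuousOn (fun w : ℂ => kk x1 x2 q w * F w) (Set.uIcc x1 x2 ×ℂ Set.uIcc 0 τ) := by
    apply ContinuousOn.mul
    · intro w hw
      rw [Set.uIcc_of_le h12.le, Set.uIcc_of_le hτ0.le] at hw
      exact (kk_diff x1 x2 q hq w hw.1.1 hw.1.2).continuousAt.continuousWithinAt
    · apply hF.mono
      intro w hw
      rw [Set.uIcc_of_le h12.le, Set.uIcc_of_le hτ0.le] at hw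
      exact ⟨by linarith [hw.1.1], by linarith [hw.1.2], hw.2.1⟩
  have hGd : DifferentiableOn ℂ (fun w : ℂ => kk x1 x2 q w * F w)
      (Set.Ioo x1 x2 ×ℂ Set.Ioo 0 τ) := by
    intro w hw
    have hw1 : x1 < w.re := hw.1.1
    have hw2 : w.re < x2 := hw.1.2
    have hw3 : 0 < w.im := hw.2.1
    have a := kk_diff x1 x2 q hq w hw1.le hw2.le
    have b : DifferentiableAt ℂ F w := by
      have hp : DifferentiableAt ℂ (Phi c) w := hd.differentiableAt
        ((isOpen_lt continuous_const Complex.continuous_im).mem_nhds hw3)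
      apply hp.congr_of_eventuallyEq
      have ho : IsOpen {w : ℂ | 0 < w.im ∧ e₁ < w.re ∧ w.re < e₂} := by
        apply IsOpen.inter
        · exact isOpen_lt continuous_const Complex.continuous_im
        · apply IsOpen.inter
          · exact isOpen_lt continuous_const Complex.continuous_re
          · exact isOpen_lt Complex.continuous_re continuous_const
      filter_upwards [ho.mem_nhds (⟨hw3, by linarith, by linarith⟩ :
        w ∈ {w : ℂ | 0 < w.im ∧ e₁ < w.re ∧ w.re < e₂})] with v hv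
      exact hFP v hv.1 hv.2.1 hv.2.2
    exact (a.mul b).differentiableWithinAt
  have rect := Complex.integral_boundary_rect_eq_zero_of_continuousOn_of_differentiableOn
    (fun w : ℂ => kk x1 x2 q w * F w) ((x1 : ℂ) + (0:ℝ) * Complex.I) ((x2 : ℂ) + τ * Complex.I)
    (by rw [hre, hre, him, him]; exact hG)
    (by
      rw [hre, hre, him, him, min_eq_left h12.le, max_eq_right h12.le, min_eq_left hτ0.le,
        max_eq_right hτ0.le]
      exact hGd)
  rw [hre, hre, him, him] at rect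
  have v1 := vert h1 h3 c M e₁ e₂ q τ e₁ x1 x1 x2 hM hc hw1 hq hqτ hτ (by linarith) (by linarith)
    le_rfl h12.le (by rw [hx1, add_sub_cancel_left, abs_of_pos hq4]) F hF hFP (by
      intro y hy
      have := kk_left x1 x2 q hq ((x1 : ℂ) + y * Complex.I) (by rw [hre]) (by rw [hre]; exact h12.le)
      rw [add_sub_cancel_left, norm_mul, Complex.norm_I, mul_one, Complex.norm_real,
        Real.norm_eq_abs, abs_of_nonneg hy] at this
      exact this)
  have v2 := vert h1 h3 c M e₁ e₂ q τ e₂ x2 x1 x2 hM hc hw2 hq hqτ hτ (by linarith) (by linarith)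
    h12.le le_rfl (by rw [hx2, sub_sub_cancel_left, abs_neg, abs_of_pos hq4]) F hF hFP (by
      intro y hy
      have := kk_right x1 x2 q hq ((x2 : ℂ) + y * Complex.I) (by rw [hre]; exact h12.le) (by rw [hre])
      rw [sub_add_cancel_left, norm_neg, norm_mul, Complex.norm_I, mul_one, Complex.norm_real,
        Real.norm_eq_abs, abs_of_nonneg hy] at this
      exact this)
  have top : (∫ θ in x1..x2, kk x1 x2 q ((θ : ℂ) + τ * Complex.I) * F ((θ : ℂ) + τ * Complex.I)) =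
      ∫ θ in x1..x2, kk x1 x2 q ((θ : ℂ) + τ * Complex.I) * Phi c ((θ : ℂ) + τ * Complex.I) := by
    apply intervalIntegral.integral_congr
    intro θ hθ
    rw [Set.uIcc_of_le h12.le] at hθ
    show kk x1 x2 q ((θ : ℂ) + τ * Complex.I) * F ((θ : ℂ) + τ * Complex.I) = _
    rw [hFP _ (by rw [him]; exact hτ0) (by rw [hre]; linarith [hθ.1]) (by rw [hre]; linarith [hθ.2])]
  have bot : (∫ θ in x1..x2, kk x1 x2 q ((θ : ℂ) + (0:ℝ) * Complex.I) *
      F ((θ : ℂ) + (0:ℝ) * Complex.I)) = ∫ θ in x1..x2, kk x1 x2 q (θ : ℂ) * F (θ : ℂ) := by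
    simp
  rw [top, bot] at rect
  -- assembly
  set T := ∫ θ in x1..x2, Phi c ((θ : ℂ) + τ * Complex.I)
  set K := ∫ θ in x1..x2, kk x1 x2 q ((θ : ℂ) + τ * Complex.I) * Phi c ((θ : ℂ) + τ * Complex.I)
  set B := ∫ θ in x1..x2, kk x1 x2 q (θ : ℂ) * F (θ : ℂ)
  set E1 := ∫ θ in e₁..x1, Phi c ((θ : ℂ) + τ * Complex.I)
  set E2 := ∫ θ in x2..e₂, Phi c ((θ : ℂ) + τ * Complex.I)
  set VR := ∫ y in (0:ℝ)..τ, kk x1 x2 q ((x2 : ℂ) + y * Complex.I) * F ((x2 : ℂ) + y * Complex.I)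
  set VL := ∫ y in (0:ℝ)..τ, kk x1 x2 q ((x1 : ℂ) + y * Complex.I) * F ((x1 : ℂ) + y * Complex.I)
  have e : (∫ θ in e₁..e₂, Phi c ((θ : ℂ) + τ * Complex.I)) - B =
      E1 + E2 + (T - K) + (Complex.I • VR - Complex.I • VL) := by
    rw [s1]
    linear_combination -rect
  rw [e]
  have nI : ∀ v : ℂ, ‖Complex.I • v‖ = ‖v‖ := fun v => by
    rw [norm_smul, Complex.norm_I, one_mul]
  have f1 : ‖E1 + E2 + (T - K) + (Complex.I • VR - Complex.I • VL)‖ ≤
      ‖E1‖ + ‖E2‖ + ‖T - K‖ + (‖VR‖ + ‖VL‖) := by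
    refine (norm_add_le _ _).trans (add_le_add ((norm_add_le _ _).trans (add_le_add
      (norm_add_le _ _) le_rfl)) ?_)
    refine (norm_sub_le _ _).trans ?_
    rw [nI, nI]
  have f2 : (2 * q / τ * (2 * M / τ)) * |x2 - x1| ≤ 4 * M * (e₂ - e₁) * q / τ ^ 2 := by
    rw [abs_of_pos (by linarith)]
    have : (2 * q / τ * (2 * M / τ)) * (x2 - x1) ≤ (2 * q / τ * (2 * M / τ)) * (e₂ - e₁) := by
      apply mul_le_mul_of_nonneg_left _ (by positivity)
      linarith
    refine this.trans (le_of_eq ?_)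
    field_simp
    ring
  have f3 : 2 * M / τ * q ^ 4 + 2 * M / τ * q ^ 4 = 4 * M * q ^ 4 / τ := by ring
  linarith

end Pool.Agent.E8helper78.PS
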